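import Mathlib

open scoped TensorProduct
open Polynomial

namespace Pool.Agent.Lib.Cae772b

universe u

/-- The truncated polynomial algebra `k[x]/(x^p)`. -/
def Al (p : ℕ) (k : Type u) [Field k] : Type u := AdjoinRoot ((X : k[X]) ^ p)

variable (p : ℕ) (k : Type u) [Field k]

noncomputable instance : CommRing (Al p k) := inferInstanceAs (CommRing (AdjoinRoot _))
noncomputable instance : Algebra k (Al p k) :=
  inferInstanceAs (Algebra k (AdjoinRoot ((X : k[X]) ^ p)))

/-- The generator. -/
noncomputable def xx : Al p k := AdjoinRoot.root _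

variable {k} in
/-- The universal property of `k[x]/(x^p)`. -/
noncomputable def liftAl {T : Type*} [CommRing T] [Algebra k T] (a : T) (h : a ^ p = 0) :
    Al p k →ₐ[k] T :=
  AdjoinRoot.liftAlgHom _ (Algebra.ofId k T) a (by simpa using h)

variable {k} in
@[simp] lemma liftAl_xx {T : Type*} [CommRing T] [Algebra k T] (a : T) (h : a ^ p = 0) :
    liftAl p a h (xx p k) = a :=
  AdjoinRoot.liftAlgHom_root _ _ _ _

variable {p k} in
lemma algHom_ext_Al {T : Type*} [Semiring T] [Algebra k T] {f g : Al p k →ₐ[k] T}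
    (h : f (xx p k) = g (xx p k)) : f = g :=
  AdjoinRoot.algHom_ext h

@[simp] lemma xx_pow : xx p k ^ p = 0 := by
  have : (AdjoinRoot.mk ((X : k[X]) ^ p)) (X ^ p) = 0 := AdjoinRoot.mk_self
  rwa [map_pow] at this

instance [Fact p.Prime] : Module.Finite k (Al p k) :=
  (monic_X_pow p).finite_adjoinRoot

instance [Fact p.Prime] : Nontrivial (Al p k) := by
  apply AdjoinRoot.nontrivial
  rw [degree_X_pow]
  exact_mod_cast (Fact.out : p.Prime).ne_zero

variable [hp : Fact p.Prime] [CharP k p]

lemma add_pow_zero {T : Type*} [CommRing T] [Algebra k T] (a b : T) (ha : a ^ p = 0)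
    (hb : b ^ p = 0) : (a + b) ^ p = 0 := by
  have h : ∃ r : T, (a + b) ^ p = a ^ p + b ^ p + p * r := by
    obtain ⟨r, hr⟩ := exists_add_pow_prime_eq hp.out a b
    exact ⟨a * b * r, by rw [hr]; ring⟩
  obtain ⟨r, hr⟩ := h
  have hp0 : (p : T) = 0 := by
    rw [← map_natCast (algebraMap k T), CharP.cast_eq_zero k p, map_zero]
  rw [hr, ha, hb, hp0]
  ring

lemma tensor_pow_zero {T : Type*} [CommRing T] [Algebra k T] {U : Type*} [CommRing U]
    [Algebra k U] (a : T) (b : U) (ha : a ^ p = 0) (hb : b ^ p = 0) :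
    (a ⊗ₜ[k] (1 : U) + (1 : T) ⊗ₜ[k] b) ^ p = 0 := by
  apply add_pow_zero p k
  · rw [Algebra.TensorProduct.tmul_pow, ha, TensorProduct.zero_tmul]
  · rw [Algebra.TensorProduct.tmul_pow, hb, TensorProduct.tmul_zero]

/-- The comultiplication. -/
noncomputable def comulAl : Al p k →ₐ[k] Al p k ⊗[k] Al p k :=
  liftAl p (xx p k ⊗ₜ[k] 1 + 1 ⊗ₜ[k] xx p k)
    (tensor_pow_zero p k _ _ (xx_pow p k) (xx_pow p k))

/-- The counit. -/
noncomputable def counitAl : Al p k →ₐ[k] k := liftAl p 0 (zero_pow hp.out.ne_zero)

noncomputable instance : Bialgebra k (Al p k) :=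
  Bialgebra.ofAlgHom (comulAl p k) (counitAl p k)
    (by
      apply algHom_ext_Al
      simp [comulAl, TensorProduct.add_tmul, TensorProduct.tmul_add,
        Algebra.TensorProduct.one_def]
      abel)
    (by
      apply algHom_ext_Al
      simp [comulAl, counitAl])
    (by
      apply algHom_ext_Al
      simp [comulAl, counitAl])

lemma comul_eq (h : Al p k) : Coalgebra.comul (R := k) h = comulAl p k h := rfl

lemma comul_xx : Coalgebra.comul (R := k) (xx p k) = xx p k ⊗ₜ[k] 1 + 1 ⊗ₜ[k] xx p k := by
  rw [comul_eq, comulAl, liftAl_xx]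

lemma counit_eq (h : Al p k) : Coalgebra.counit (R := k) h = counitAl p k h := rfl

/-- The antipode, `x ↦ -x`. -/
noncomputable def antiAl : Al p k →ₐ[k] Al p k :=
  liftAl p (-xx p k) (by rw [neg_pow, xx_pow, mul_zero])

noncomputable instance : HopfAlgebra k (Al p k) where
  antipode := (antiAl p k).toLinearMap
  mul_antipode_rTensor_comul := by
    have h : ((Algebra.TensorProduct.lmul' k).comp
        ((Algebra.TensorProduct.map (antiAl p k) (AlgHom.id k (Al p k))).comp (comulAl p k))) =
        (Algebra.ofId k (Al p k)).comp (counitAl p k) := by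
      apply algHom_ext_Al
      simp [comulAl, counitAl, antiAl]
    exact congrArg AlgHom.toLinearMap h
  mul_antipode_lTensor_comul := by
    have h : ((Algebra.TensorProduct.lmul' k).comp
        ((Algebra.TensorProduct.map (AlgHom.id k (Al p k)) (antiAl p k)).comp (comulAl p k))) =
        (Algebra.ofId k (Al p k)).comp (counitAl p k) := by
      apply algHom_ext_Al
      simp [comulAl, counitAl, antiAl]
    exact congrArg AlgHom.toLinearMap h

instance : Coalgebra.IsCocomm k (Al p k) where
  comm_comp_comul := by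
    have h : (Algebra.TensorProduct.comm k (Al p k) (Al p k)).toAlgHom.comp (comulAl p k) =
        comulAl p k := by
      apply algHom_ext_Al
      simp [comulAl, add_comm]
    exact congrArg AlgHom.toLinearMap h

lemma antipode_eq (h : Al p k) : HopfAlgebra.antipode k h = antiAl p k h := rfl

omit hp [CharP k p] in
lemma antipode_antipode (h : Al p k) : antiAl p k (antiAl p k h) = h := by
  have h' : (antiAl p k).comp (antiAl p k) = AlgHom.id k _ := by
    apply algHom_ext_Al
    simp [antiAl]
  exact DFunLike.congr_fun h' h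

end Pool.Agent.Lib.Cae772b
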