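import Pool.Agent.Lib.Cae772b.LinAlg

open scoped TensorProduct
open Polynomial

namespace Pool.Agent.Lib.Cae772b

universe u

variable {k D : Type u} [Field k] [CommRing D] [Algebra k D]

section Mod

variable (V : Type u) [AddCommGroup V] [Module D V] [Module k V] [IsScalarTower k D V]

/-- Multiplication by an element of `D` as a `k`-linear map. -/
noncomputable def act (d : D) : Module.End k V where
  toFun := fun z => d • z
  map_add' := smul_add d
  map_smul' c z := by
    rw [RingHom.id_apply, ← algebraMap_smul D c z, ← algebraMap_smul D c (d • z),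
      smul_smul, smul_smul, mul_comm]

variable {V} in
@[simp] lemma act_apply (d : D) (z : V) : act (k := k) V d z = d • z := rfl

lemma act_pow (d : D) (n : ℕ) : act (k := k) V d ^ n = act V (d ^ n) := by
  induction n with
  | zero => ext z; simp
  | succ n ih =>
    ext z
    rw [pow_succ, Module.End.mul_apply, ih, pow_succ]
    simp [smul_smul]

lemma act_commute (d e : D) : Commute (act (k := k) V d) (act V e) := by
  ext z
  simp only [Module.End.mul_apply, act_apply, smul_smul, mul_comm]

lemma act_zero : act (k := k) V (0 : D) = 0 := by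
  ext z
  simp

variable (k) in
/-- The operator `x - s y` on `k(s) ⊗ V`. -/
noncomputable def el (x y : D) : Module.End (RatFunc k) (RatFunc k ⊗[k] V) :=
  ell (act V x) (act V y)

variable (k) in
/-- Exactness of the periodic complex defined by `x - s y`. -/
def Ac (p : ℕ) (x y : D) : Prop := ∀ q₁ q₂ : ℕ, q₁ + q₂ = p → Ex (el k V x y ^ q₂) (el k V x y ^ q₁)

variable (p : ℕ) [hp : Fact p.Prime] [CharP k p] {x y : D} (hx : x ^ p = 0) (hy : y ^ p = 0)

include hx hy

lemma el_pow : el k V x y ^ p = 0 :=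
  ell_pow_char p (act_commute V _ _) (by rw [act_pow, hx, act_zero])
    (by rw [act_pow, hy, act_zero])

lemma el_pow_pow (q₁ q₂ : ℕ) (h : q₁ + q₂ = p) (z) :
    (el k V x y ^ q₁) ((el k V x y ^ q₂) z) = 0 := by
  rw [← Module.End.mul_apply, ← pow_add, h, el_pow V p hx hy, LinearMap.zero_apply]

/-- Finite-dimensional modules on which the complex of `x` is exact. -/
lemma ac_of_finite [Module.Finite k V]
    (h : ∀ q₁ q₂ : ℕ, q₁ + q₂ = p → ∀ z : V, x ^ q₂ • z = 0 → ∃ w : V, z = x ^ q₁ • w) :
    Ac k V p x y := by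
  intro q₁ q₂ hq
  apply ex_ell_of_fd p (act_commute V _ _) (by rw [act_pow, hx, act_zero])
    (by rw [act_pow, hy, act_zero]) q₁ q₂ hq
  intro z hz
  rw [act_pow, act_apply] at hz
  obtain ⟨w, hw⟩ := h q₁ q₂ hq z hz
  exact ⟨w, by rw [act_pow, act_apply, hw]⟩

omit hx hy

section Maps

variable {V}
variable {W : Type u} [AddCommGroup W] [Module D W] [Module k W] [IsScalarTower k D W]
variable {U : Type u} [AddCommGroup U] [Module D U] [Module k U] [IsScalarTower k D U]

variable (k) in
/-- A `D`-linear map is `k`-linear. -/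
noncomputable def toK (f : V →ₗ[D] W) : V →ₗ[k] W where
  toFun := f
  map_add' := map_add f
  map_smul' c z := by
    rw [RingHom.id_apply, ← algebraMap_smul D c z, ← algebraMap_smul D c (f z),
      map_smul]

@[simp] lemma toK_apply (f : V →ₗ[D] W) (z : V) : toK k f z = f z := rfl

omit hp [CharP k p] in
lemma el_comm (f : V →ₗ[D] W) (n : ℕ) (z : RatFunc k ⊗[k] V) :
    (toK k f).baseChange (RatFunc k) ((el k V x y ^ n) z) =
      (el k W x y ^ n) ((toK k f).baseChange (RatFunc k) z) :=
  ell_pow_comm (toK k f) (fun z => by simp) (fun z => by simp) n z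

include hx hy

lemma Ac.middle {f : V →ₗ[D] W} {g : W →ₗ[D] U} (hf : Function.Injective f)
    (hfg : Function.Exact f g) (hg : Function.Surjective g) (hV : Ac k V p x y)
    (hU : Ac k U p x y) : Ac k W p x y := by
  intro q₁ q₂ hq
  exact Ex.middle (Module.Flat.lTensor_preserves_injective_linearMap (toK k f) hf)
    (Module.Flat.lTensor_exact (RatFunc k) (f := toK k f) (g := toK k g) hfg)
    (LinearMap.lTensor_surjective (RatFunc k) (g := toK k g) hg)
    (el_comm f q₂) (el_comm f q₁) (el_comm g q₂) (el_comm g q₁)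
    (el_pow_pow W p hx hy q₂ q₁ (by omega)) (hV q₁ q₂ hq) (hU q₁ q₂ hq)

lemma Ac.right {f : V →ₗ[D] W} {g : W →ₗ[D] U} (hf : Function.Injective f)
    (hfg : Function.Exact f g) (hg : Function.Surjective g) (hV : Ac k V p x y)
    (hW : Ac k W p x y) : Ac k U p x y := by
  intro q₁ q₂ hq
  exact Ex.right (Module.Flat.lTensor_preserves_injective_linearMap (toK k f) hf)
    (Module.Flat.lTensor_exact (RatFunc k) (f := toK k f) (g := toK k g) hfg)
    (LinearMap.lTensor_surjective (RatFunc k) (g := toK k g) hg)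
    (el_comm f q₂) (el_comm f q₁) (el_comm g q₂) (el_comm g q₁)
    (el_pow_pow W p hx hy q₁ q₂ (by omega)) (hW q₁ q₂ hq) (hV q₂ q₁ (by omega))

lemma Ac.left {f : V →ₗ[D] W} {g : W →ₗ[D] U} (hf : Function.Injective f)
    (hfg : Function.Exact f g) (hg : Function.Surjective g) (hW : Ac k W p x y)
    (hU : Ac k U p x y) : Ac k V p x y := by
  intro q₁ q₂ hq
  exact Ex.left (Module.Flat.lTensor_preserves_injective_linearMap (toK k f) hf)
    (Module.Flat.lTensor_exact (RatFunc k) (f := toK k f) (g := toK k g) hfg)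
    (LinearMap.lTensor_surjective (RatFunc k) (g := toK k g) hg)
    (el_comm f q₂) (el_comm f q₁) (el_comm g q₂) (el_comm g q₁)
    (el_pow_pow W p hx hy q₁ q₂ (by omega)) (hW q₁ q₂ hq) (hU q₂ q₁ (by omega))

omit hx hy hp [CharP k p] in
lemma Ac.retract {f : V →ₗ[D] W} {g : W →ₗ[D] V} (hgf : ∀ z, g (f z) = z)
    (hW : Ac k W p x y) : Ac k V p x y := by
  intro q₁ q₂ hq
  refine Ex.retract (f := (toK k f).baseChange (RatFunc k))
    (g := (toK k g).baseChange (RatFunc k))
    ?_ (el_comm f q₂) (el_comm g q₁) (hW q₁ q₂ hq)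
  intro z
  rw [← LinearMap.comp_apply, ← LinearMap.baseChange_comp]
  have : (toK k g) ∘ₗ (toK k f) = LinearMap.id := by
    ext z
    simp [hgf]
  rw [this, LinearMap.baseChange_id, LinearMap.id_apply]

end Maps

omit hp [CharP k p] in
/-- Closure under direct sums, in an abstract form. -/
lemma ac_of_sum {ι : Type u} (U : ι → Type u) [∀ m, AddCommGroup (U m)]
    [∀ m, Module D (U m)] [∀ m, Module k (U m)] [∀ m, IsScalarTower k D (U m)]
    (inc : ∀ m, U m →ₗ[D] V) (pr : ∀ m, V →ₗ[D] U m)
    (hfin : ∀ z : V, ∃ s : Finset ι, ∀ t : Finset ι, s ⊆ t → z = ∑ m ∈ t, inc m (pr m z))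
    (hU : ∀ m, Ac k (U m) p x y) : Ac k V p x y := by
  classical
  have hfin' : ∀ z : RatFunc k ⊗[k] V, ∃ s : Finset ι, ∀ t : Finset ι, s ⊆ t →
      z = ∑ m ∈ t, (toK k (inc m)).baseChange (RatFunc k)
        ((toK k (pr m)).baseChange (RatFunc k) z) := by
    intro z
    induction z with
    | zero => exact ⟨∅, fun t _ => by simp⟩
    | add x y hx hy =>
      obtain ⟨s, hs⟩ := hx
      obtain ⟨s', hs'⟩ := hy
      refine ⟨s ∪ s', fun t ht => ?_⟩
      simp only [map_add, Finset.sum_add_distrib]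
      rw [← hs t (Finset.union_subset_left ht), ← hs' t (Finset.union_subset_right ht)]
    | tmul c x =>
      obtain ⟨s, hs⟩ := hfin x
      refine ⟨s, fun t ht => ?_⟩
      simp only [LinearMap.baseChange_tmul, toK_apply]
      rw [← TensorProduct.tmul_sum, ← hs t ht]
  intro q₁ q₂ hq z hz
  obtain ⟨s, hs⟩ := hfin' z
  have h1 : ∀ m, ∃ w, (toK k (pr m)).baseChange (RatFunc k) z = (el k (U m) x y ^ q₁) w := by
    intro m
    apply hU m q₁ q₂ hq
    rw [← el_comm, hz, map_zero]
  choose w hw using h1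
  refine ⟨∑ m ∈ s, (toK k (inc m)).baseChange (RatFunc k) (w m), ?_⟩
  rw [map_sum, hs s subset_rfl]
  apply Finset.sum_congr rfl
  intro m _
  rw [hw m, el_comm]

end Mod

end Pool.Agent.Lib.Cae772b
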