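import Mathlib

open CategoryTheory
open scoped TensorProduct

namespace Pool.Agent.Lib.Cae772b

universe u

/-- Let `H` be a Hopf algebra over the field `k`.  A `k`-algebra `D` together with algebra
homomorphisms `i : H → D` and `j : H^* → D` (where `H^* = WithConv (H →ₗ[k] k)` is the dual of `H`
with the convolution product) is a *Drinfeld double* of `H` if the antipode `S` of `H` is
bijective, the linear map `H^* ⊗ H → D`, `f ⊗ h ↦ j(f) i(h)`, is bijective, and
`i(h) j(f) = ∑ j(f(S⁻¹(h₃) ? h₁)) i(h₂)` holds for all `h` in `H` and `f` in `H^*`.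
This says exactly that `D` is `H^* ⊗ H` with the multiplication
`(f ⊗ h)(g ⊗ l) = ∑ f g(S⁻¹(h₃) ? h₁) ⊗ h₂ l`. -/
structure IsDrinfeldDouble {k H D : Type u} [Field k] [Ring H] [HopfAlgebra k H] [Ring D]
    [Algebra k D] (i : H →ₐ[k] D) (j : WithConv (H →ₗ[k] k) →ₐ[k] D) : Prop where
  antipode_bijective : Function.Bijective (HopfAlgebra.antipode k : H →ₗ[k] H)
  bijective : Function.Bijective
    (LinearMap.mul' k D ∘ₗ TensorProduct.map j.toLinearMap i.toLinearMap :
      WithConv (H →ₗ[k] k) ⊗[k] H →ₗ[k] D)
  cross : ∀ (f : H →ₗ[k] k) (h : H) (n : ℕ) (h₁ h₂ h₃ s₃ : Fin n → H),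
    LinearMap.lTensor H (Coalgebra.comul : H →ₗ[k] H ⊗[k] H) (Coalgebra.comul (R := k) h) =
      ∑ m, h₁ m ⊗ₜ[k] (h₂ m ⊗ₜ[k] h₃ m) →
    (∀ m, HopfAlgebra.antipode k (s₃ m) = h₃ m) →
    i h * j (WithConv.toConv f) =
      ∑ m, j (WithConv.toConv (f ∘ₗ LinearMap.mulRight k (h₁ m) ∘ₗ LinearMap.mulLeft k (s₃ m))) *
        i (h₂ m)

/-- The modules over `D` whose restriction along `i : H → D` is a projective `H`-module.  These are
the objects of the kernel `K` of the restriction functor `StMod(D) → StMod(H)`. -/
def InKernel {k H D : Type u} [Field k] [Ring H] [Algebra k H] [Ring D] [Algebra k D]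
    (i : H →ₐ[k] D) (M : ModuleCat.{u} D) : Prop :=
  Module.Projective H ((ModuleCat.restrictScalars i.toRingHom).obj M)

/-- A class `C` of modules over a ring `A` *is localizing* if it contains all projective modules,
it satisfies the two-out-of-three property for short exact sequences, and it is closed under
arbitrary direct sums.  If `A` is a self-injective algebra (e.g. a finite-dimensional Hopf
algebra), these are exactly the classes of modules forming the localizing subcategories of the
stable module category `StMod(A)`: its zero objects are the projective modules and its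
distinguished triangles are those given by short exact sequences of modules. -/
structure IsLocalizing {A : Type u} [Ring A] (C : ModuleCat.{u} A → Prop) : Prop where
  of_projective : ∀ M : ModuleCat.{u} A, Module.Projective A M → C M
  left : ∀ T : ShortComplex (ModuleCat.{u} A), T.ShortExact → C T.X₂ → C T.X₃ → C T.X₁
  middle : ∀ T : ShortComplex (ModuleCat.{u} A), T.ShortExact → C T.X₁ → C T.X₃ → C T.X₂
  right : ∀ T : ShortComplex (ModuleCat.{u} A), T.ShortExact → C T.X₁ → C T.X₂ → C T.X₃
  directSum : ∀ (ι : Type u) (M : ι → ModuleCat.{u} A), (∀ m, C (M m)) →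
    C (ModuleCat.of A (DirectSum ι fun m => M m))

/-- `Loc T` is the smallest localizing class containing the class `T`. -/
def Loc {A : Type u} [Ring A] (T : ModuleCat.{u} A → Prop) (M : ModuleCat.{u} A) : Prop :=
  ∀ C : ModuleCat.{u} A → Prop, IsLocalizing C → (∀ N, T N → C N) → C M

end Pool.Agent.Lib.Cae772b
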