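import Pool.Agent.Lib.Cae772b.AlphaP
import Pool.Agent.Lib.Cae772b.Defs

open scoped TensorProduct
open Polynomial

namespace Pool.Agent.Lib.Cae772b

universe u

variable (p : ℕ) (k : Type u) [Field k] [hp : Fact p.Prime] [CharP k p]

/-- The dual algebra. -/
abbrev Hd : Type u := WithConv (Al p k →ₗ[k] k)

lemma conv_pow (f g : Hd p k) (n : ℕ) : (f * g) (xx p k ^ n) =
    ∑ m ∈ Finset.range (n + 1), f (xx p k ^ m) * g (xx p k ^ (n - m)) * (n.choose m : k) := by
  rw [LinearMap.convMul_apply, Bialgebra.comul_pow, comul_xx, add_pow]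
  simp only [map_sum]
  apply Finset.sum_congr rfl
  intro m _
  rw [Algebra.TensorProduct.tmul_pow, Algebra.TensorProduct.tmul_pow,
    Algebra.TensorProduct.tmul_mul_tmul, one_pow, one_pow, one_mul, mul_one]
  have h : ((xx p k ^ m) ⊗ₜ[k] (xx p k ^ (n - m))) * ((n.choose m : ℕ) : Al p k ⊗[k] Al p k) =
      (n.choose m : k) • ((xx p k ^ m) ⊗ₜ[k] (xx p k ^ (n - m))) := by
    rw [← nsmul_eq_mul', Nat.cast_smul_eq_nsmul]
  rw [h, map_smul, map_smul, TensorProduct.map_tmul, LinearMap.mul'_apply, smul_eq_mul]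
  ring

/-- The exponential generating polynomial of a functional. -/
noncomputable def egf : Hd p k →ₗ[k] k[X] where
  toFun f := ∑ n ∈ Finset.range p, monomial n (f (xx p k ^ n) * ((n.factorial : k))⁻¹)
  map_add' f g := by
    rw [← Finset.sum_add_distrib]
    apply Finset.sum_congr rfl
    intro n _
    rw [← map_add]
    congr 1
    show (f (xx p k ^ n) + g (xx p k ^ n)) * _ = _
    ring
  map_smul' c f := by
    rw [RingHom.id_apply, Finset.smul_sum]
    apply Finset.sum_congr rfl
    intro n _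
    rw [smul_monomial]
    congr 1
    show (c * f (xx p k ^ n)) * _ = _
    rw [smul_eq_mul, mul_assoc]

lemma coeff_egf (f : Hd p k) (n : ℕ) (hn : n < p) :
    (egf p k f).coeff n = f (xx p k ^ n) * ((n.factorial : k))⁻¹ := by
  simp only [egf, LinearMap.coe_mk, AddHom.coe_mk, finsetSum_coeff, coeff_monomial]
  rw [Finset.sum_ite_eq' (Finset.range p) n]
  simp [hn]

lemma coeff_egf_ge (f : Hd p k) (n : ℕ) (hn : p ≤ n) :
    (egf p k f).coeff n = 0 := by
  simp only [egf, LinearMap.coe_mk, AddHom.coe_mk, finsetSum_coeff, coeff_monomial]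
  rw [Finset.sum_ite_eq' (Finset.range p) n]
  simp [hn]

lemma factorial_ne_zero {n : ℕ} (hn : n < p) : (n.factorial : k) ≠ 0 := by
  rw [Ne, CharP.cast_eq_zero_iff k p, hp.out.dvd_factorial]
  omega

lemma egf_mul (f g : Hd p k) : (X : k[X]) ^ p ∣ egf p k (f * g) - egf p k f * egf p k g := by
  rw [X_pow_dvd_iff]
  intro n hn
  rw [coeff_sub, coeff_egf p k _ n hn, coeff_mul, Finset.Nat.sum_antidiagonal_eq_sum_range_succ
    (fun i j => (egf p k f).coeff i * (egf p k g).coeff j), conv_pow, Finset.sum_mul, sub_eq_zero]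
  apply Finset.sum_congr rfl
  intro m hm
  rw [Finset.mem_range] at hm
  rw [coeff_egf p k _ m (by omega), coeff_egf p k _ (n - m) (by omega)]
  have h1 := factorial_ne_zero p k hn
  have h2 := factorial_ne_zero p k (n := m) (by omega)
  have h3 := factorial_ne_zero p k (n := n - m) (by omega)
  have h4 : (n.choose m : k) * (m.factorial : k) * ((n - m).factorial : k) = n.factorial := by
    exact_mod_cast congrArg (fun t : ℕ => (t : k))
      (Nat.choose_mul_factorial_mul_factorial (by omega : m ≤ n))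
  field_simp
  rw [← h4]
  ring

/-- The algebra homomorphism `H^* → T` attached to an element `e` with `e^p = 0`. -/
noncomputable def phi {T : Type*} [CommRing T] [Algebra k T] (e : T) (he : e ^ p = 0) :
    Hd p k →ₐ[k] T :=
  AlgHom.ofLinearMap ((aeval e).toLinearMap ∘ₗ egf p k)
    (by
      have h : egf p k 1 = 1 := by
        ext n
        by_cases hn : n < p
        · rw [coeff_egf p k _ n hn, LinearMap.convOne_apply, Bialgebra.counit_pow, counit_eq,
            counitAl, liftAl_xx, coeff_one]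
          rcases Nat.eq_zero_or_pos n with rfl | hn'
          · simp
          · rw [zero_pow hn'.ne', if_neg hn'.ne']
            simp
        · rw [coeff_egf_ge p k _ n (not_lt.1 hn), coeff_one, if_neg]
          have := hp.out.pos
          omega
      show aeval e (egf p k 1) = 1
      rw [h, map_one])
    (by
      intro f g
      show aeval e (egf p k (f * g)) = aeval e (egf p k f) * aeval e (egf p k g)
      obtain ⟨q, hq⟩ := egf_mul p k f g
      rw [sub_eq_iff_eq_add] at hq
      rw [hq, map_add, map_mul, map_mul, map_pow, aeval_X, he, zero_mul, zero_add])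

lemma phi_apply {T : Type*} [CommRing T] [Algebra k T] (e : T) (he : e ^ p = 0) (f : Hd p k) :
    phi p k e he f = aeval e (egf p k f) := rfl

/-- The power basis of `k[x]/(x^p)`. -/
noncomputable def pbAl : PowerBasis k (Al p k) :=
  AdjoinRoot.powerBasis' (monic_X_pow (R := k) p)

lemma pbAl_dim : (pbAl p k).dim = p := by
  rw [pbAl, AdjoinRoot.powerBasis'_dim, natDegree_X_pow]

lemma pbAl_gen : (pbAl p k).gen = xx p k := rfl

lemma span_pow_xx : Submodule.span k (Set.range fun n : Fin p => xx p k ^ (n : ℕ)) = ⊤ := by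
  rw [eq_top_iff, ← (pbAl p k).basis.span_eq, Submodule.span_le, PowerBasis.coe_basis]
  rintro _ ⟨n, rfl⟩
  apply Submodule.subset_span
  have hn : (n : ℕ) < p := n.2.trans_eq (pbAl_dim p k)
  exact ⟨⟨n, hn⟩, by simp [pbAl_gen]⟩

lemma ext_pow_xx {f g : Hd p k} (h : ∀ n < p, f (xx p k ^ n) = g (xx p k ^ n)) : f = g := by
  apply WithConv.ext
  apply LinearMap.ext_on_range (span_pow_xx p k)
  rintro ⟨n, hn⟩
  exact h n hn

lemma phi_injective : Function.Injective (phi p k (xx p k) (xx_pow p k)) := by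
  rw [injective_iff_map_eq_zero]
  intro f hf
  rw [phi_apply] at hf
  have h1 : (X : k[X]) ^ p ∣ egf p k f := by
    rw [← AdjoinRoot.mk_eq_zero, ← AdjoinRoot.aeval_eq]
    exact hf
  rw [X_pow_dvd_iff] at h1
  apply ext_pow_xx
  intro n hn
  have h2 := h1 n hn
  rw [coeff_egf p k f n hn] at h2
  exact (mul_eq_zero.1 h2).resolve_right (inv_ne_zero (factorial_ne_zero p k hn))

/-- The generator of the dual algebra: the coefficient of `x`. -/
noncomputable def yy : Hd p k :=
  WithConv.toConv (lcoeff k 1 ∘ₗ AdjoinRoot.modByMonicHom (monic_X_pow (R := k) p))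

lemma yy_pow_xx (n : ℕ) (hn : n < p) : yy p k (xx p k ^ n) = if n = 1 then 1 else 0 := by
  have h : (AdjoinRoot.mk ((X : k[X]) ^ p)) (X ^ n) = xx p k ^ n := by
    rw [map_pow]; rfl
  rw [← h]
  show (AdjoinRoot.modByMonicHom (monic_X_pow (R := k) p)
    ((AdjoinRoot.mk ((X : k[X]) ^ p)) (X ^ n))).coeff 1 = _
  rw [AdjoinRoot.modByMonicHom_mk, (modByMonic_eq_self_iff (monic_X_pow p)).2, coeff_X_pow]
  · simp [eq_comm]
  · rw [degree_X_pow, degree_X_pow]
    exact_mod_cast hn

lemma egf_yy : egf p k (yy p k) = X := by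
  ext n
  have h2 := hp.out.two_le
  by_cases hn : n < p
  · rw [coeff_egf p k _ n hn, yy_pow_xx p k n hn, coeff_X]
    by_cases h1 : n = 1
    · subst h1; simp
    · rw [if_neg h1, if_neg (fun h => h1 h.symm), zero_mul]
  · rw [coeff_egf_ge p k _ n (not_lt.1 hn), coeff_X, if_neg]
    omega

lemma phi_yy {T : Type*} [CommRing T] [Algebra k T] (e : T) (he : e ^ p = 0) :
    phi p k e he (yy p k) = e := by
  rw [phi_apply, egf_yy, aeval_X]

lemma yy_pow : yy p k ^ p = 0 := by
  apply phi_injective
  rw [map_pow, phi_yy, xx_pow, map_zero]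

/-- The Drinfeld double of `H = k[x]/(x^p)`: the algebra `H^* ⊗ H`. -/
def DD : Type u := Hd p k ⊗[k] Al p k

noncomputable instance : CommRing (DD p k) := inferInstanceAs (CommRing (Hd p k ⊗[k] Al p k))
noncomputable instance : Algebra k (DD p k) := inferInstanceAs (Algebra k (Hd p k ⊗[k] Al p k))

/-- The inclusion `H → D(H)`. -/
noncomputable def iD : Al p k →ₐ[k] DD p k :=
  (Algebra.TensorProduct.includeRight : Al p k →ₐ[k] Hd p k ⊗[k] Al p k)

/-- The inclusion `H^* → D(H)`. -/
noncomputable def jD : Hd p k →ₐ[k] DD p k :=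
  (Algebra.TensorProduct.includeLeft : Hd p k →ₐ[k] Hd p k ⊗[k] Al p k)

lemma jD_mul_iD (f : Hd p k) (h : Al p k) : jD p k f * iD p k h = (f ⊗ₜ[k] h : Hd p k ⊗[k] Al p k) := by
  show ((f ⊗ₜ[k] 1 : Hd p k ⊗[k] Al p k) * ((1 : Hd p k) ⊗ₜ[k] h : Hd p k ⊗[k] Al p k) :
    Hd p k ⊗[k] Al p k) = _
  rw [Algebra.TensorProduct.tmul_mul_tmul, mul_one, one_mul]

/-- The map `a ⊗ b ⊗ c ↦ S(c) a ⊗ b`. -/
noncomputable def crossHom : Al p k ⊗[k] (Al p k ⊗[k] Al p k) →ₐ[k] Al p k ⊗[k] Al p k :=
  Algebra.TensorProduct.lift (Algebra.TensorProduct.includeLeft)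
    (Algebra.TensorProduct.lift (Algebra.TensorProduct.includeRight)
      (Algebra.TensorProduct.includeLeft.comp (antiAl p k)) (fun _ _ => Commute.all _ _))
    (fun _ _ => Commute.all _ _)

lemma crossHom_tmul (a b c : Al p k) :
    crossHom p k (a ⊗ₜ (b ⊗ₜ c)) = (antiAl p k c * a) ⊗ₜ b := by
  simp [crossHom, mul_comm]

lemma crossHom_comul (h : Al p k) :
    crossHom p k (LinearMap.lTensor (Al p k)
      (Coalgebra.comul : Al p k →ₗ[k] Al p k ⊗[k] Al p k) (Coalgebra.comul (R := k) h)) =
      1 ⊗ₜ h := by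
  have h' : (crossHom p k).comp ((Algebra.TensorProduct.map (AlgHom.id k (Al p k))
      (comulAl p k)).comp (comulAl p k)) = Algebra.TensorProduct.includeRight := by
    apply algHom_ext_Al
    simp [comulAl, TensorProduct.tmul_add, crossHom, antiAl, TensorProduct.neg_tmul]
  exact DFunLike.congr_fun h' h

theorem isDrinfeldDouble :
    IsDrinfeldDouble (k := k) (H := Al p k) (D := DD p k) (iD p k) (jD p k) where
  antipode_bijective := by
    refine Function.bijective_iff_has_inverse.2 ⟨antiAl p k, ?_, ?_⟩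
    · exact fun h => antipode_antipode p k h
    · exact fun h => antipode_antipode p k h
  bijective := by
    have h : ∀ z : Hd p k ⊗[k] Al p k, (LinearMap.mul' k (DD p k) ∘ₗ
        TensorProduct.map (jD p k).toLinearMap (iD p k).toLinearMap) z = z := by
      intro z
      induction z with
      | zero => exact map_zero _
      | add x y hx hy => rw [map_add, hx, hy]; rfl
      | tmul f h =>
        rw [LinearMap.comp_apply, TensorProduct.map_tmul, LinearMap.mul'_apply]
        exact jD_mul_iD p k f h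
    constructor
    · intro a b hab
      rw [h, h] at hab
      exact hab
    · intro z
      exact ⟨z, h z⟩
  cross := by
    intro f h n h₁ h₂ h₃ s₃ hsum hs
    have h1 := congrArg (crossHom p k) hsum
    rw [crossHom_comul, map_sum] at h1
    have h2 : ∀ m, s₃ m = antiAl p k (h₃ m) := by
      intro m
      rw [← hs m, antipode_eq, antipode_antipode]
    have h3 : ∀ m, crossHom p k (h₁ m ⊗ₜ (h₂ m ⊗ₜ h₃ m)) = (s₃ m * h₁ m) ⊗ₜ h₂ m := by
      intro m
      rw [crossHom_tmul, h2]
    simp only [h3] at h1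
    -- apply the linear map `a ⊗ b ↦ (f ∘ (a * ·)) ⊗ b`
    let L : Al p k →ₗ[k] Hd p k :=
      (WithConv.linearEquiv k (Al p k →ₗ[k] k)).symm.toLinearMap ∘ₗ
        (LinearMap.llcomp k (Al p k) (Al p k) k f) ∘ₗ (LinearMap.mul k (Al p k))
    let LL : Al p k ⊗[k] Al p k →ₗ[k] DD p k :=
      LinearMap.mul' k (DD p k) ∘ₗ TensorProduct.map ((jD p k).toLinearMap ∘ₗ L)
        (iD p k).toLinearMap
    have h4 := congrArg LL h1
    rw [map_sum] at h4
    simp only [LL, LinearMap.comp_apply, TensorProduct.map_tmul, LinearMap.mul'_apply] at h4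
    have h5 : L 1 = WithConv.toConv f := by
      apply WithConv.ext
      ext a
      simp [L]
    have h6 : ∀ m, L (s₃ m * h₁ m) = WithConv.toConv
        (f ∘ₗ LinearMap.mulRight k (h₁ m) ∘ₗ LinearMap.mulLeft k (s₃ m)) := by
      intro m
      apply WithConv.ext
      ext a
      simp only [L, LinearMap.coe_comp, LinearEquiv.coe_coe, Function.comp_apply]
      show f (s₃ m * h₁ m * a) = f (s₃ m * a * h₁ m)
      congr 1
      ring
    rw [h5] at h4
    simp only [h6] at h4
    rw [mul_comm]
    exact h4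

end Pool.Agent.Lib.Cae772b
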