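import Mathlib

open scoped TensorProduct
open Polynomial

namespace Pool.Agent.Lib.Cae772b

universe u

section Exact

variable {R P Q T : Type*} [Ring R] [AddCommGroup P] [Module R P] [AddCommGroup Q] [Module R Q]
  [AddCommGroup T] [Module R T]

/-- `ker a ≤ range b`. -/
def Ex (a b : Module.End R P) : Prop := ∀ z, a z = 0 → ∃ w, z = b w

lemma Ex.middle {aP bP : Module.End R P} {aQ bQ : Module.End R Q} {aT bT : Module.End R T}
    {f : P →ₗ[R] Q} {g : Q →ₗ[R] T} (hf : Function.Injective f) (hfg : Function.Exact f g)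
    (hg : Function.Surjective g) (hfa : ∀ z, f (aP z) = aQ (f z)) (hfb : ∀ z, f (bP z) = bQ (f z))
    (hga : ∀ z, g (aQ z) = aT (g z)) (hgb : ∀ z, g (bQ z) = bT (g z))
    (hab : ∀ z, aQ (bQ z) = 0) (hP : Ex aP bP) (hT : Ex aT bT) : Ex aQ bQ := by
  intro q hq
  obtain ⟨r, hr⟩ := hT (g q) (by rw [← hga, hq, map_zero])
  obtain ⟨q', rfl⟩ := hg r
  obtain ⟨p, hp⟩ := (hfg (q - bQ q')).1 (by rw [map_sub, hgb, hr, sub_self])
  obtain ⟨p', rfl⟩ := hP p (hf (by rw [hfa, hp, map_sub, hq, hab, sub_self, map_zero]))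
  refine ⟨q' + f p', ?_⟩
  rw [map_add, ← hfb, hp, add_sub_cancel]

lemma Ex.right {aP bP : Module.End R P} {aQ bQ : Module.End R Q} {aT bT : Module.End R T}
    {f : P →ₗ[R] Q} {g : Q →ₗ[R] T} (hf : Function.Injective f) (hfg : Function.Exact f g)
    (hg : Function.Surjective g) (hfa : ∀ z, f (aP z) = aQ (f z)) (hfb : ∀ z, f (bP z) = bQ (f z))
    (hga : ∀ z, g (aQ z) = aT (g z)) (hgb : ∀ z, g (bQ z) = bT (g z))
    (hba : ∀ z, bQ (aQ z) = 0) (hQ : Ex aQ bQ) (hP : Ex bP aP) : Ex aT bT := by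
  intro r hr
  obtain ⟨q, rfl⟩ := hg r
  obtain ⟨p, hp⟩ := (hfg (aQ q)).1 (by rw [hga, hr])
  obtain ⟨p', rfl⟩ := hP p (hf (by rw [hfb, hp, hba, map_zero]))
  obtain ⟨q', hq'⟩ := hQ (q - f p') (by rw [map_sub, ← hfa, hp, sub_self])
  refine ⟨g q', ?_⟩
  have h0 : g (f p') = 0 := (hfg (f p')).2 ⟨p', rfl⟩
  rw [← hgb, ← hq', map_sub, h0, sub_zero]

lemma Ex.left {aP bP : Module.End R P} {aQ bQ : Module.End R Q} {aT bT : Module.End R T}
    {f : P →ₗ[R] Q} {g : Q →ₗ[R] T} (hf : Function.Injective f) (hfg : Function.Exact f g)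
    (hg : Function.Surjective g) (hfa : ∀ z, f (aP z) = aQ (f z)) (hfb : ∀ z, f (bP z) = bQ (f z))
    (hga : ∀ z, g (aQ z) = aT (g z)) (hgb : ∀ z, g (bQ z) = bT (g z))
    (hba : ∀ z, bQ (aQ z) = 0) (hQ : Ex aQ bQ) (hT : Ex bT aT) : Ex aP bP := by
  intro p hp
  obtain ⟨q, hq⟩ := hQ (f p) (by rw [← hfa, hp, map_zero])
  obtain ⟨r, hr⟩ := hT (g q) (by rw [← hgb, ← hq]; exact (hfg (f p)).2 ⟨p, rfl⟩)
  obtain ⟨q', rfl⟩ := hg r
  obtain ⟨p', hp'⟩ := (hfg (q - aQ q')).1 (by rw [map_sub, hga, hr, sub_self])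
  refine ⟨p', hf ?_⟩
  rw [hfb, hp', map_sub, hba, sub_zero, hq]

lemma Ex.retract {aP bP : Module.End R P} {aQ bQ : Module.End R Q}
    {f : P →ₗ[R] Q} {g : Q →ₗ[R] P} (hgf : ∀ z, g (f z) = z)
    (hfa : ∀ z, f (aP z) = aQ (f z)) (hgb : ∀ z, g (bQ z) = bP (g z))
    (hQ : Ex aQ bQ) : Ex aP bP := by
  intro p hp
  obtain ⟨q, hq⟩ := hQ (f p) (by rw [← hfa, hp, map_zero])
  exact ⟨g q, by rw [← hgb, ← hq, hgf]⟩

end Exact

section Homotopy

variable {k V : Type*} [Field k] [AddCommGroup V] [Module k V]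

/-- Over a field an exact spot has a contracting homotopy. -/
lemma exists_homotopy (a b : Module.End k V) (h : Ex b a) :
    ∃ h₁ h₂ : Module.End k V, a * h₁ + h₂ * b = 1 := by
  obtain ⟨W, hW⟩ := Submodule.exists_isCompl (LinearMap.ker b)
  let π : V →ₗ[k] V := (LinearMap.ker b).subtype ∘ₗ
    Submodule.projectionOnto (LinearMap.ker b) W hW
  have hπ : ∀ z, π z ∈ LinearMap.range a := by
    intro z
    obtain ⟨w, hw⟩ := h (π z) (Submodule.projectionOnto (LinearMap.ker b) W hW z).2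
    exact ⟨w, hw.symm⟩
  obtain ⟨σ, hσ⟩ := a.rangeRestrict.exists_rightInverse_of_surjective a.range_rangeRestrict
  have hker : LinearMap.ker b ≤ LinearMap.ker (LinearMap.id - π) := by
    intro z hz
    rw [LinearMap.mem_ker, LinearMap.sub_apply, LinearMap.id_apply, sub_eq_zero]
    simp only [π, LinearMap.comp_apply, Submodule.subtype_apply]
    have := Submodule.projectionOnto_apply_left hW ⟨z, hz⟩
    rw [this]
  obtain ⟨τ, hτ⟩ := b.rangeRestrict.exists_rightInverse_of_surjective b.range_rangeRestrict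
  obtain ⟨h₂, hh₂⟩ := LinearMap.exists_extend ((LinearMap.id - π : V →ₗ[k] V) ∘ₗ τ)
  refine ⟨σ ∘ₗ π.codRestrict _ hπ, h₂, ?_⟩
  ext z
  have h1 : a (σ (π.codRestrict _ hπ z)) = π z := by
    have := LinearMap.congr_fun hσ (π.codRestrict _ hπ z)
    have h2 := congrArg Subtype.val this
    simpa using h2
  have h2 : h₂ (b z) = z - π z := by
    have h3 : h₂ (b z) = (LinearMap.id - π : V →ₗ[k] V) (τ (b.rangeRestrict z)) := by
      have := LinearMap.congr_fun hh₂ (b.rangeRestrict z)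
      simpa using this
    have h4 : τ (b.rangeRestrict z) - z ∈ LinearMap.ker b := by
      rw [LinearMap.mem_ker, map_sub, sub_eq_zero]
      have := LinearMap.congr_fun hτ (b.rangeRestrict z)
      have h5 := congrArg Subtype.val this
      simpa using h5
    have h6 := hker h4
    rw [LinearMap.mem_ker, map_sub, sub_eq_zero] at h6
    rw [h3, h6]
    rfl
  rw [LinearMap.add_apply, Module.End.mul_apply, Module.End.mul_apply, LinearMap.comp_apply, h1,
    h2, Module.End.one_apply, add_sub_cancel]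

end Homotopy

section Ell

variable {k : Type u} [Field k] {V W : Type u} [AddCommGroup V] [Module k V]
  [AddCommGroup W] [Module k W]

/-- The operator `u - s v` on `k(s) ⊗ V`. -/
noncomputable def ell (u v : Module.End k V) : Module.End (RatFunc k) (RatFunc k ⊗[k] V) :=
  Module.End.baseChangeHom k (RatFunc k) V u -
    (RatFunc.X : RatFunc k) • Module.End.baseChangeHom k (RatFunc k) V v

lemma ell_comm {u v : Module.End k V} {u' v' : Module.End k W} (f : V →ₗ[k] W)
    (hu : ∀ z, f (u z) = u' (f z)) (hv : ∀ z, f (v z) = v' (f z)) (z : RatFunc k ⊗[k] V) :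
    f.baseChange (RatFunc k) (ell u v z) = ell u' v' (f.baseChange (RatFunc k) z) := by
  induction z with
  | zero => simp
  | add x y hx hy => simp only [map_add, hx, hy]
  | tmul c x =>
    show f.baseChange (RatFunc k) (u.baseChange (RatFunc k) (c ⊗ₜ x) -
      (RatFunc.X : RatFunc k) • v.baseChange (RatFunc k) (c ⊗ₜ x)) =
      u'.baseChange (RatFunc k) (f.baseChange (RatFunc k) (c ⊗ₜ x)) -
      (RatFunc.X : RatFunc k) • v'.baseChange (RatFunc k) (f.baseChange (RatFunc k) (c ⊗ₜ x))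
    simp [hu, hv]

lemma ell_pow_comm {u v : Module.End k V} {u' v' : Module.End k W} (f : V →ₗ[k] W)
    (hu : ∀ z, f (u z) = u' (f z)) (hv : ∀ z, f (v z) = v' (f z)) (n : ℕ)
    (z : RatFunc k ⊗[k] V) :
    f.baseChange (RatFunc k) ((ell u v ^ n) z) = (ell u' v' ^ n) (f.baseChange (RatFunc k) z) := by
  induction n generalizing z with
  | zero => simp
  | succ n ih =>
    rw [pow_succ, pow_succ, Module.End.mul_apply, Module.End.mul_apply, ih, ell_comm f hu hv]

lemma ell_pow_char (p : ℕ) [hp : Fact p.Prime] [CharP k p] {u v : Module.End k V}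
    (huv : Commute u v) (hu : u ^ p = 0) (hv : v ^ p = 0) : ell u v ^ p = 0 := by
  set B := Module.End.baseChangeHom k (RatFunc k) V
  have h1 : ell u v = B u + (-(RatFunc.X : RatFunc k)) • B v := by
    rw [ell, sub_eq_add_neg]
    congr 1
    exact (neg_smul _ _).symm
  have h2 : Commute (B u) ((-(RatFunc.X : RatFunc k)) • B v) :=
    (huv.map B).smul_right _
  obtain ⟨r, hr⟩ := h2.exists_add_pow_prime_eq hp.out
  have h3 : ((p : ℕ) : Module.End (RatFunc k) (RatFunc k ⊗[k] V)) = 0 := by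
    rw [← map_natCast (algebraMap k (Module.End (RatFunc k) (RatFunc k ⊗[k] V))),
      CharP.cast_eq_zero, map_zero]
  rw [h1, hr, _root_.smul_pow, ← map_pow, ← map_pow, hu, hv, h3]
  simp

lemma injective_of_homotopy [Module.Finite k V] (u v h₁ h₂ : Module.End k V) (q₁ q₂ : ℕ)
    (h : u ^ q₁ * h₁ + h₂ * u ^ q₂ = 1) :
    Function.Injective (ell u v ^ q₁ * Module.End.baseChangeHom k (RatFunc k) V h₁ +
      Module.End.baseChangeHom k (RatFunc k) V h₂ * ell u v ^ q₂) := by
  classical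
  set B := Module.End.baseChangeHom k (RatFunc k) V with hB
  set g := ell u v ^ q₁ * B h₁ + B h₂ * ell u v ^ q₂ with hg
  let b := Module.finBasis k V
  let bF := Algebra.TensorProduct.basis (RatFunc k) b
  let Tk := LinearMap.toMatrixAlgEquiv b
  let TF := LinearMap.toMatrixAlgEquiv bF
  have hTB : ∀ f, TF (B f) = (Tk f).map (algebraMap k (RatFunc k)) := by
    intro f
    exact LinearMap.toMatrix_baseChange (RatFunc k) f b b
  let MC : Module.End k V → Matrix (Fin (Module.finrank k V)) (Fin (Module.finrank k V)) k[X] :=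
    fun f => (C : k →+* k[X]).mapMatrix (Tk f)
  let G := (MC u - (X : k[X]) • MC v) ^ q₁ * MC h₁ + MC h₂ * (MC u - (X : k[X]) • MC v) ^ q₂
  have hη : ∀ f, (algebraMap k[X] (RatFunc k)).mapMatrix (MC f) = TF (B f) := by
    intro f
    rw [hTB]
    ext i j
    simp only [MC, RingHom.mapMatrix_apply, Matrix.map_apply]
    exact RatFunc.algebraMap_C _
  have hηX : ∀ f, (algebraMap k[X] (RatFunc k)).mapMatrix ((X : k[X]) • MC f) =
      (RatFunc.X : RatFunc k) • TF (B f) := by
    intro f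
    rw [← hη]
    ext i j
    simp only [RingHom.mapMatrix_apply, Matrix.map_apply, Matrix.smul_apply, smul_eq_mul,
      map_mul, RatFunc.algebraMap_X]
  have hGF : (algebraMap k[X] (RatFunc k)).mapMatrix G = TF g := by
    simp only [G, hg, ell, map_add, map_mul, map_pow, map_sub, map_smul, hη, hηX]
    rfl
  have hε : ∀ f, (evalRingHom (0 : k)).mapMatrix (MC f) = Tk f := by
    intro f
    ext i j
    simp [MC, RingHom.mapMatrix_apply, Matrix.map_apply]
  have hεX : ∀ f, (evalRingHom (0 : k)).mapMatrix ((X : k[X]) • MC f) = 0 := by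
    intro f
    ext i j
    simp [MC, RingHom.mapMatrix_apply, Matrix.map_apply]
  have hGk : (evalRingHom (0 : k)).mapMatrix G = 1 := by
    simp only [G, map_add, map_mul, map_pow, map_sub, hε, hεX, sub_zero]
    rw [← map_pow, ← map_pow, ← map_mul, ← map_mul, ← map_add, h, map_one]
  have hdet : G.det ≠ 0 := by
    intro h0
    have := congrArg (evalRingHom (0 : k)) h0
    rw [RingHom.map_det, hGk, Matrix.det_one, map_zero] at this
    exact one_ne_zero this
  have hdetF : (TF g).det ≠ 0 := by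
    rw [← hGF, ← RingHom.map_det]
    intro h0
    exact hdet ((map_eq_zero_iff _ (RatFunc.algebraMap_injective k)).1 h0)
  have hunit : IsUnit (TF g) := by
    rw [Matrix.isUnit_iff_isUnit_det]
    exact isUnit_iff_ne_zero.2 hdetF
  have hunit' : IsUnit g := (isUnit_map_iff TF g).1 hunit
  exact ((Module.End.isUnit_iff g).1 hunit').1

/-- The generic semicontinuity statement. -/
lemma ex_ell_of_fd [Module.Finite k V] (p : ℕ) [hp : Fact p.Prime] [CharP k p]
    {u v : Module.End k V} (huv : Commute u v) (hu : u ^ p = 0) (hv : v ^ p = 0) (q₁ q₂ : ℕ)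
    (hq : q₁ + q₂ = p) (h : Ex (u ^ q₂) (u ^ q₁)) : Ex (ell u v ^ q₂) (ell u v ^ q₁) := by
  obtain ⟨h₁, h₂, hh⟩ := exists_homotopy _ _ h
  have hinj := injective_of_homotopy u v h₁ h₂ q₁ q₂ hh
  set B := Module.End.baseChangeHom k (RatFunc k) V
  have h0 : ell u v ^ q₂ * ell u v ^ q₁ = 0 := by
    rw [← pow_add, add_comm, hq, ell_pow_char p huv hu hv]
  set g := ell u v ^ q₁ * B h₁ + B h₂ * ell u v ^ q₂ with hg
  set Kr := LinearMap.ker (ell u v ^ q₂)
  set Im := LinearMap.range (ell u v ^ q₁)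
  have hImK : Im ≤ Kr := by
    rintro _ ⟨z, rfl⟩
    rw [LinearMap.mem_ker, ← Module.End.mul_apply, h0, LinearMap.zero_apply]
  have hgK : Kr.map g ≤ Im := by
    rintro _ ⟨z, hz, rfl⟩
    refine ⟨B h₁ z, ?_⟩
    have hz' : (ell u v ^ q₂) z = 0 := hz
    rw [hg, LinearMap.add_apply, Module.End.mul_apply, Module.End.mul_apply, hz', map_zero,
      add_zero]
  have hfin : Module.Finite (RatFunc k) (RatFunc k ⊗[k] V) := inferInstance
  have hcard : Module.finrank (RatFunc k) Kr ≤ Module.finrank (RatFunc k) Im := by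
    rw [(Submodule.equivMapOfInjective g hinj Kr).finrank_eq]
    exact Submodule.finrank_mono hgK
  have heq : Im = Kr := Submodule.eq_of_le_of_finrank_le hImK hcard
  intro z hz
  have : z ∈ Im := by rw [heq]; exact hz
  obtain ⟨w, hw⟩ := this
  exact ⟨w, hw.symm⟩

end Ell

end Pool.Agent.Lib.Cae772b
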