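import Pool.Agent.Lib.Cae772b.Main

open CategoryTheory
open scoped TensorProduct
open Polynomial

namespace Pool.Agent.Lib.Cae772b

set_option linter.style.haveILetI false

universe u

variable (p : ℕ) (k : Type u) [Field k] [hp : Fact p.Prime] [CharP k p]

/-- The `k`-structure of a `D`-module. -/
noncomputable abbrev kMod (M : ModuleCat.{u} (DD p k)) : Module k M :=
  Module.compHom M (algebraMap k (DD p k))

lemma kTower (M : ModuleCat.{u} (DD p k)) :
    @IsScalarTower k (DD p k) M _ _ (kMod p k M).toSMul := by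
  letI := kMod p k M
  constructor
  intro c d z
  rw [Algebra.smul_def, mul_smul]
  rfl

/-- The localizing class. -/
def CC (M : ModuleCat.{u} (DD p k)) : Prop :=
  letI := kMod p k M
  haveI := kTower p k M
  Ac k M p (xD p k) (yD p k)

theorem isLocalizing_CC : IsLocalizing (CC p k) where
  of_projective := by
    intro M hM
    letI := kMod p k M
    haveI := kTower p k M
    exact ac_projective p k M
  left := by
    intro T hT h2 h3
    letI := kMod p k T.X₁
    haveI := kTower p k T.X₁
    letI := kMod p k T.X₂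
    haveI := kTower p k T.X₂
    letI := kMod p k T.X₃
    haveI := kTower p k T.X₃
    exact Ac.left p (xD_pow p k) (yD_pow p k) (f := T.f.hom) (g := T.g.hom)
      ((ModuleCat.mono_iff_injective T.f).1 hT.mono_f)
      ((ShortComplex.ShortExact.moduleCat_exact_iff_function_exact T).1 hT.exact)
      ((ModuleCat.epi_iff_surjective T.g).1 hT.epi_g) h2 h3
  middle := by
    intro T hT h1 h3
    letI := kMod p k T.X₁
    haveI := kTower p k T.X₁
    letI := kMod p k T.X₂
    haveI := kTower p k T.X₂
    letI := kMod p k T.X₃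
    haveI := kTower p k T.X₃
    exact Ac.middle p (xD_pow p k) (yD_pow p k) (f := T.f.hom) (g := T.g.hom)
      ((ModuleCat.mono_iff_injective T.f).1 hT.mono_f)
      ((ShortComplex.ShortExact.moduleCat_exact_iff_function_exact T).1 hT.exact)
      ((ModuleCat.epi_iff_surjective T.g).1 hT.epi_g) h1 h3
  right := by
    intro T hT h1 h2
    letI := kMod p k T.X₁
    haveI := kTower p k T.X₁
    letI := kMod p k T.X₂
    haveI := kTower p k T.X₂
    letI := kMod p k T.X₃
    haveI := kTower p k T.X₃
    exact Ac.right p (xD_pow p k) (yD_pow p k) (f := T.f.hom) (g := T.g.hom)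
      ((ModuleCat.mono_iff_injective T.f).1 hT.mono_f)
      ((ShortComplex.ShortExact.moduleCat_exact_iff_function_exact T).1 hT.exact)
      ((ModuleCat.epi_iff_surjective T.g).1 hT.epi_g) h1 h2
  directSum := by
    classical
    intro ι M hM
    letI := fun m => kMod p k (M m)
    haveI := fun m => kTower p k (M m)
    letI := kMod p k (ModuleCat.of (DD p k) (DirectSum ι fun m => M m))
    haveI := kTower p k (ModuleCat.of (DD p k) (DirectSum ι fun m => M m))
    refine ac_of_sum (ModuleCat.of (DD p k) (DirectSum ι fun m => M m)) p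
      (fun m => M m) (fun m => DirectSum.lof (DD p k) ι (fun m => M m) m)
      (fun m => DirectSum.component (DD p k) ι (fun m => M m) m) ?_ hM
    intro z
    refine ⟨DFinsupp.support z, fun t ht => ?_⟩
    have h1 : ∑ m ∈ DFinsupp.support z, DirectSum.of (fun m => M m) m (z m) = z :=
      DirectSum.sum_support_of z
    have h2 : ∑ m ∈ DFinsupp.support z, DirectSum.of (fun m => M m) m (z m) =
        ∑ m ∈ t, DirectSum.of (fun m => M m) m (z m) := by
      apply Finset.sum_subset ht
      intro m _ hm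
      rw [DFinsupp.notMem_support_iff.1 hm, map_zero]
    exact h1.symm.trans h2

/-- Finitely generated modules in the kernel lie in the class. -/
theorem CC_of_finite (N : ModuleCat.{u} (DD p k)) (hN : InKernel (iD p k) N)
    [hfin : Module.Finite (DD p k) N] : CC p k N := by
  letI := kMod p k N
  haveI := kTower p k N
  haveI : Module.Finite k N := Module.Finite.trans (DD p k) N
  refine ac_of_finite N p (xD_pow p k) (yD_pow p k) ?_
  intro q₁ q₂ hq z hz
  haveI : Module.Projective (Al p k)
    ((ModuleCat.restrictScalars (iD p k).toRingHom).obj N) := hN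
  have h0 : ∀ (q : ℕ) (w : (ModuleCat.restrictScalars (iD p k).toRingHom).obj N),
      xx p k ^ q • w = (show (ModuleCat.restrictScalars (iD p k).toRingHom).obj N from
        (xD p k ^ q • (show N from w) : N)) := by
    intro q w
    rw [xD, ← map_pow]
    rfl
  obtain ⟨w, hw⟩ := projective_exact p k
    ((ModuleCat.restrictScalars (iD p k).toRingHom).obj N) q₁ q₂ hq z ((h0 q₂ z).trans hz)
  exact ⟨w, hw.trans (h0 q₁ w)⟩

/-- The algebra `H ⊗ k(s)`. -/
abbrev EE : Type u := Al p k ⊗[k] RatFunc k

/-- The element `x ⊗ s⁻¹`. -/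
noncomputable def ee : EE p k := xx p k ⊗ₜ (RatFunc.X)⁻¹

omit hp [CharP k p] in
lemma ee_pow : ee p k ^ p = 0 := by
  rw [ee, Algebra.TensorProduct.tmul_pow, xx_pow, TensorProduct.zero_tmul]

/-- The algebra homomorphism `D → H ⊗ k(s)`, `x ↦ x ⊗ 1`, `y ↦ x ⊗ s⁻¹`. -/
noncomputable def psi : DD p k →ₐ[k] EE p k :=
  Algebra.TensorProduct.lift (phi p k (ee p k) (ee_pow p k))
    (Algebra.TensorProduct.includeLeft) (fun _ _ => Commute.all _ _)

lemma psi_iD (h : Al p k) : psi p k (iD p k h) = h ⊗ₜ 1 := by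
  show Algebra.TensorProduct.lift (phi p k (ee p k) (ee_pow p k))
    (Algebra.TensorProduct.includeLeft) (fun _ _ => Commute.all _ _) (1 ⊗ₜ h) = _
  rw [Algebra.TensorProduct.lift_tmul, map_one, one_mul]
  rfl

lemma psi_yD : psi p k (yD p k) = ee p k := by
  show Algebra.TensorProduct.lift (phi p k (ee p k) (ee_pow p k))
    (Algebra.TensorProduct.includeLeft) (fun _ _ => Commute.all _ _) (yy p k ⊗ₜ 1) = _
  rw [Algebra.TensorProduct.lift_tmul, map_one, mul_one, phi_yy]

lemma psi_xD : psi p k (xD p k) = xx p k ⊗ₜ 1 := psi_iD p k _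

/-- The module. -/
noncomputable def MM : ModuleCat.{u} (DD p k) :=
  letI : Module (DD p k) (EE p k) := Module.compHom (EE p k) (psi p k).toRingHom
  ModuleCat.of (DD p k) (EE p k)

theorem inKernel_MM : InKernel (iD p k) (MM p k) := by
  let e : EE p k ≃ₗ[Al p k] ((ModuleCat.restrictScalars (iD p k).toRingHom).obj (MM p k)) :=
    { toFun := fun z => z
      invFun := fun z => z
      left_inv := fun z => rfl
      right_inv := fun z => rfl
      map_add' := fun _ _ => rfl
      map_smul' := by
        intro h z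
        show h • z = psi p k (iD p k h) * z
        rw [psi_iD, Algebra.smul_def]
        rfl }
  exact Module.Projective.of_equiv e

lemma smul_MM (d : DD p k) (z : MM p k) : 
    d • z = (show MM p k from (psi p k d * (show EE p k from z) : EE p k)) :=
  rfl

omit hp [CharP k p] in
lemma aux_EE (c : RatFunc k) (z : EE p k) :
    ((1 : Al p k) ⊗ₜ[k] c) * (xx p k ⊗ₜ[k] (1 : RatFunc k) * z) -
        ((1 : Al p k) ⊗ₜ[k] (RatFunc.X * c)) * (xx p k ⊗ₜ[k] (RatFunc.X)⁻¹ * z) = 0 := by
  have h : RatFunc.X * c * (RatFunc.X)⁻¹ = c := by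
    rw [mul_right_comm, mul_inv_cancel₀ RatFunc.X_ne_zero, one_mul]
  rw [← mul_assoc, ← mul_assoc, Algebra.TensorProduct.tmul_mul_tmul,
    Algebra.TensorProduct.tmul_mul_tmul, mul_one, h, sub_self]

theorem not_CC_MM : ¬ CC p k (MM p k) := by
  letI := kMod p k (MM p k)
  haveI := kTower p k (MM p k)
  intro h
  have hk : ∀ (a : k) (z : MM p k), a • z = (show MM p k from (a • (show EE p k from z) : EE p k)) := by
    intro a z
    show psi p k (algebraMap k (DD p k) a) * (show EE p k from z) = a • (show EE p k from z)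
    rw [AlgHom.commutes, Algebra.smul_def]
  let μ : RatFunc k ⊗[k] MM p k →ₗ[k] EE p k := TensorProduct.lift
    (LinearMap.mk₂ k (fun (c : RatFunc k) (z : MM p k) => (((1 : Al p k) ⊗ₜ[k] c) *
      (show EE p k from z) : EE p k))
      (by
        intro c c' z
        rw [TensorProduct.tmul_add, add_mul])
      (by
        intro a c z
        rw [TensorProduct.tmul_smul, smul_mul_assoc])
      (by
        intro c z z'
        exact map_add (LinearMap.mul k (EE p k) ((1 : Al p k) ⊗ₜ[k] c)) (show EE p k from z)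
          (show EE p k from z'))
      (by
        intro a c z
        rw [hk]
        exact mul_smul_comm _ _ _))
  have hμ : ∀ (c : RatFunc k) (z : MM p k), μ (c ⊗ₜ z) = (((1 : Al p k) ⊗ₜ[k] c) *
      (show EE p k from z) : EE p k) := fun c z => rfl
  have hel : ∀ (c : RatFunc k) (z : MM p k), el k (MM p k) (xD p k) (yD p k) (c ⊗ₜ z) =
      c ⊗ₜ (xD p k • z) - (RatFunc.X * c) ⊗ₜ (yD p k • z) := by
    intro c z
    rfl
  have hμel : ∀ z, μ (el k (MM p k) (xD p k) (yD p k) z) = 0 := by
    intro z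
    induction z with
    | zero => rw [map_zero, map_zero]
    | add a b ha hb => rw [map_add, map_add, ha, hb, add_zero]
    | tmul c z =>
      rw [hel, map_sub, hμ, hμ, smul_MM, smul_MM, psi_xD, psi_yD, ee]
      exact aux_EE p k c z
  have hp2 := hp.out.two_le
  let z₀ : EE p k := (xx p k ^ (p - 1)) ⊗ₜ 1
  have hxp : xx p k * xx p k ^ (p - 1) = 0 := by
    rw [← pow_succ', Nat.sub_add_cancel (by omega), xx_pow]
  have h1 : el k (MM p k) (xD p k) (yD p k) ((1 : RatFunc k) ⊗ₜ (show MM p k from z₀)) = 0 := by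
    rw [hel, smul_MM, smul_MM, psi_xD, psi_yD, ee]
    have h2 : (xx p k ⊗ₜ[k] (1 : RatFunc k) * z₀ : EE p k) = 0 := by
      rw [Algebra.TensorProduct.tmul_mul_tmul, hxp, TensorProduct.zero_tmul]
    have h3 : (xx p k ⊗ₜ[k] (RatFunc.X)⁻¹ * z₀ : EE p k) = 0 := by
      rw [Algebra.TensorProduct.tmul_mul_tmul, hxp, TensorProduct.zero_tmul]
    have h2' : (show MM p k from (xx p k ⊗ₜ[k] (1 : RatFunc k) * z₀ : EE p k)) = 0 := h2
    have h3' : (show MM p k from (xx p k ⊗ₜ[k] (RatFunc.X)⁻¹ * z₀ : EE p k)) = 0 := h3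
    have h4 : (1 : RatFunc k) ⊗ₜ[k] (show MM p k from (xx p k ⊗ₜ[k] (1 : RatFunc k) * z₀ : EE p k)) -
      (RatFunc.X * 1) ⊗ₜ[k] (show MM p k from (xx p k ⊗ₜ[k] (RatFunc.X)⁻¹ * z₀ : EE p k)) = 0 := by
      rw [h2', h3', TensorProduct.tmul_zero, TensorProduct.tmul_zero, sub_zero]
    exact h4
  obtain ⟨w, hw⟩ := h (p - 1) 1 (by omega) _ (by rw [pow_one]; exact h1)
  have h4 : μ ((1 : RatFunc k) ⊗ₜ (show MM p k from z₀)) = 0 := by
    rw [hw]
    obtain ⟨q, hq⟩ : ∃ q, p - 1 = q + 1 := ⟨p - 2, by omega⟩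
    rw [hq, pow_succ', Module.End.mul_apply, hμel]
  rw [hμ] at h4
  have h5 : (((1 : Al p k) ⊗ₜ[k] (1 : RatFunc k)) * z₀ : EE p k) = z₀ := one_mul _
  have h6 : (z₀ : EE p k) = 0 := h5.symm.trans h4
  have h7 : Function.Injective (Algebra.TensorProduct.includeLeft : Al p k →ₐ[k] EE p k) :=
    Algebra.TensorProduct.includeLeft_injective (RatFunc.C_injective)
  have h8 : (Algebra.TensorProduct.includeLeft : Al p k →ₐ[k] EE p k) (xx p k ^ (p - 1)) = 0 := h6
  exact xx_pow_pred_ne_zero p k ((map_eq_zero_iff _ h7).1 h8)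

/-- The kernel of restriction from the double of `k[x]/(x^p)` is not generated by its finite
dimensional objects. -/
theorem not_loc : ¬ Loc (fun N : ModuleCat.{u} (DD p k) =>
    InKernel (iD p k) N ∧ Module.Finite (DD p k) N) (MM p k) := by
  intro h
  refine not_CC_MM p k (h (CC p k) (isLocalizing_CC p k) ?_)
  rintro N ⟨h1, h2⟩
  exact CC_of_finite p k N h1

end Pool.Agent.Lib.Cae772b
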