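import Pool.Agent.Lib.Cae772b.Class
import Pool.Agent.Lib.Cae772b.Dual

open CategoryTheory
open scoped TensorProduct
open Polynomial

namespace Pool.Agent.Lib.Cae772b

universe u

section Base

variable (p : ℕ) (k : Type u) [Field k]

lemma xx_exact (q₁ q₂ : ℕ) (h : q₁ + q₂ = p) (c : Al p k) (hc : xx p k ^ q₂ * c = 0) :
    ∃ c', c = xx p k ^ q₁ * c' := by
  obtain ⟨f, rfl⟩ := AdjoinRoot.mk_surjective (g := (X : k[X]) ^ p) c
  have h1 : AdjoinRoot.mk ((X : k[X]) ^ p) (X ^ q₂ * f) = 0 := by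
    rw [map_mul, map_pow]
    exact hc
  rw [AdjoinRoot.mk_eq_zero, ← h, pow_add, mul_comm] at h1
  obtain ⟨g, hg⟩ := (mul_dvd_mul_iff_left (pow_ne_zero q₂ X_ne_zero)).1 h1
  refine ⟨AdjoinRoot.mk _ g, ?_⟩
  rw [hg, map_mul, map_pow]
  rfl

lemma xx_pow_pred_ne_zero [hp : Fact p.Prime] : xx p k ^ (p - 1) ≠ 0 := by
  intro h
  have h1 : AdjoinRoot.mk ((X : k[X]) ^ p) (X ^ (p - 1)) = 0 := by
    rw [map_pow]
    exact h
  rw [AdjoinRoot.mk_eq_zero] at h1
  have h2 := (pow_dvd_pow_iff (X_ne_zero (R := k)) not_isUnit_X).1 h1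
  have := hp.out.pos
  omega

/-- Exactness of `x^{q₁}, x^{q₂}` on a projective `H`-module. -/
lemma projective_exact (N : Type u) [AddCommGroup N] [Module (Al p k) N]
    [hN : Module.Projective (Al p k) N] (q₁ q₂ : ℕ) (h : q₁ + q₂ = p) (z : N)
    (hz : xx p k ^ q₂ • z = 0) : ∃ w : N, z = xx p k ^ q₁ • w := by
  classical
  obtain ⟨s, hs⟩ := hN.out
  have h1 : ∀ m, ∃ c', s z m = xx p k ^ q₁ * c' := by
    intro m
    apply xx_exact p k q₁ q₂ h
    rw [← smul_eq_mul, ← Finsupp.smul_apply, ← map_smul, hz, map_zero, Finsupp.zero_apply]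
  choose c hc using h1
  refine ⟨Finsupp.linearCombination (Al p k) id (Finsupp.onFinset (s z).support
    (fun m => if m ∈ (s z).support then c m else 0) (fun m hm => by
      by_contra h'
      simp [h'] at hm)), ?_⟩
  rw [← map_smul]
  conv_lhs => rw [← hs z]
  congr 1
  ext m
  rw [Finsupp.smul_apply, Finsupp.onFinset_apply, smul_eq_mul]
  split_ifs with hm
  · exact hc m
  · rw [mul_zero]
    simpa using hm

end Base

variable (p : ℕ) (k : Type u) [Field k] [hp : Fact p.Prime] [CharP k p]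

instance : Module.Finite k (Hd p k) :=
  Module.Finite.equiv (WithConv.linearEquiv k (Al p k →ₗ[k] k)).symm

instance : Module.Finite k (DD p k) := inferInstanceAs (Module.Finite k (Hd p k ⊗[k] Al p k))

/-- The element `x` of the double. -/
noncomputable def xD : DD p k := iD p k (xx p k)

/-- The element `y` of the double. -/
noncomputable def yD : DD p k := jD p k (yy p k)

lemma xD_pow : xD p k ^ p = 0 := by
  rw [xD, ← map_pow, xx_pow, map_zero]

lemma yD_pow : yD p k ^ p = 0 := by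
  rw [yD, ← map_pow, yy_pow, map_zero]

lemma xD_exact (q₁ q₂ : ℕ) (h : q₁ + q₂ = p) (c : DD p k) (hc : xD p k ^ q₂ * c = 0) :
    ∃ c', c = xD p k ^ q₁ * c' := by
  have hex : Function.Exact (LinearMap.mulLeft k (xx p k ^ q₁))
      (LinearMap.mulLeft k (xx p k ^ q₂)) := by
    intro c
    rw [LinearMap.mulLeft_apply]
    constructor
    · intro hc
      obtain ⟨c', hc'⟩ := xx_exact p k q₁ q₂ h c hc
      exact ⟨c', hc'.symm⟩
    · rintro ⟨c', rfl⟩
      rw [LinearMap.mulLeft_apply, ← mul_assoc, ← pow_add, add_comm, h, xx_pow, zero_mul]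
  have hex2 := Module.Flat.lTensor_exact (Hd p k) hex
  have h1 : ∀ (q : ℕ) (c : Hd p k ⊗[k] Al p k),
      (LinearMap.mulLeft k (xx p k ^ q)).lTensor (Hd p k) c =
      ((1 : Hd p k) ⊗ₜ[k] (xx p k ^ q)) * c := by
    intro q c
    have h3 : (LinearMap.mulLeft k (xx p k ^ q)).lTensor (Hd p k) =
        LinearMap.mulLeft k ((1 : Hd p k) ⊗ₜ[k] (xx p k ^ q) : Hd p k ⊗[k] Al p k) := by
      apply TensorProduct.ext'
      intro f a
      rw [LinearMap.lTensor_tmul, LinearMap.mulLeft_apply, LinearMap.mulLeft_apply,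
        Algebra.TensorProduct.tmul_mul_tmul, one_mul]
    exact LinearMap.congr_fun h3 c
  have h2 : ∀ q : ℕ, xD p k ^ q = ((1 : Hd p k) ⊗ₜ[k] (xx p k ^ q) : Hd p k ⊗[k] Al p k) := by
    intro q
    rw [xD, ← map_pow]
    rfl
  rw [h2] at hc
  obtain ⟨c', hc'⟩ := (hex2 c).1 ((h1 q₂ c).trans hc)
  refine ⟨c', ?_⟩
  rw [h2]
  exact ((h1 q₁ c').symm.trans hc').symm

lemma ac_DD : Ac k (DD p k) p (xD p k) (yD p k) :=
  ac_of_finite (DD p k) p (xD_pow p k) (yD_pow p k)
    (fun q₁ q₂ hq z hz => xD_exact p k q₁ q₂ hq z hz)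

lemma ac_projective (N : Type u) [AddCommGroup N] [Module (DD p k) N] [Module k N]
    [IsScalarTower k (DD p k) N]
    [hN : Module.Projective (DD p k) N] : Ac k N p (xD p k) (yD p k) := by
  classical
  obtain ⟨s, hs⟩ := hN.out
  refine Ac.retract (W := N →₀ DD p k) p (f := s)
    (g := Finsupp.linearCombination (DD p k) id) hs ?_
  refine ac_of_sum (N →₀ DD p k) p (fun _ : N => DD p k) (fun m => Finsupp.lsingle m)
    (fun m => Finsupp.lapply m) ?_ (fun _ => ac_DD p k)
  intro z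
  refine ⟨z.support, fun t ht => ?_⟩
  simp only [Finsupp.lsingle_apply, Finsupp.lapply_apply]
  have h1 := Finsupp.sum_single z
  rw [Finsupp.sum] at h1
  conv_lhs => rw [← h1]
  apply Finset.sum_subset ht
  intro m _ hm
  rw [Finsupp.notMem_support_iff.1 hm, Finsupp.single_zero]

end Pool.Agent.Lib.Cae772b
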